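import Pool.Agent.N204.HR.Stm

/-!
# The conjugating automorphism (task LV)
-/

set_option autoImplicit false
set_option linter.all false

namespace Pool.Agent.N262.HR

open Module Matrix Pool.Agent.N204.HR
open Pool.Agent.N996.BP (kp kp_apply)

/-- An orthonormal basis of a positive Hermitian form. -/
theorem exists_onb {V : Type} [AddCommGroup V] [Module ℂ V] [Module.Finite ℂ V] (h : V → V → ℂ)
    (h1 : ∀ x y z, h z (x + y) = h z x + h z y) (h2 : ∀ (r : ℂ) x y, h y (r • x) = star r * h y x)
    (h3 : ∀ x y, star (h x y) = h y x) (h4 : ∀ x, x ≠ 0 → 0 < (h x x).re) :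
    ∃ (n : ℕ) (e : Basis (Fin n) ℂ V), ∀ i j, h (e i) (e j) = if i = j then 1 else 0 := by
  classical
  have h0 : ∀ z, h z 0 = 0 := fun z => by
    have := h2 0 0 z
    rwa [zero_smul, star_zero, zero_mul] at this
  let cd : InnerProductSpace.Core ℂ V :=
    { inner := fun x y => h y x
      conj_inner_symm := fun x y => h3 x y
      re_inner_nonneg := fun x => by
        by_cases hx : x = 0
        · subst hx
          change 0 ≤ (h 0 0).re
          rw [h0, Complex.zero_re]
        · exact (h4 x hx).le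
      add_left := fun x y z => h1 x y z
      smul_left := fun x y r => h2 r x y
      definite := fun x hx => by
        by_contra hne
        have h5 := h4 x hne
        have h6 : h x x = 0 := hx
        rw [h6, Complex.zero_re] at h5
        exact lt_irrefl _ h5 }
  letI : NormedAddCommGroup V := cd.toNormedAddCommGroup
  letI : InnerProductSpace ℂ V := InnerProductSpace.ofCore cd.toCore
  let b := stdOrthonormalBasis ℂ V
  refine ⟨_, b.toBasis, fun i j => ?_⟩
  have h5 := (orthonormal_iff_ite.1 b.orthonormal) j i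
  rw [OrthonormalBasis.coe_toBasis]
  change inner ℂ (b j) (b i) = _
  rw [h5]
  by_cases hij : i = j
  · rw [if_pos hij.symm, if_pos hij]
  · rw [if_neg (fun h => hij h.symm), if_neg hij]

/-- A sesquilinear form with real diagonal is Hermitian. -/
theorem herm {V : Type} [AddCommGroup V] [Module ℂ V] (h : V → V → ℂ)
    (h1 : ∀ x y z, h z (x + y) = h z x + h z y) (h2 : ∀ (r : ℂ) x y, h y (r • x) = star r * h y x)
    (h1' : ∀ x y z, h (x + y) z = h x z + h y z) (h2' : ∀ (r : ℂ) x y, h (r • x) y = r * h x y)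
    (h5 : ∀ x, (h x x).im = 0) (x y : V) : star (h x y) = h y x := by
  have e1 := h5 (x + y)
  rw [h1', h1, h1, Complex.add_im, Complex.add_im, Complex.add_im, h5, h5] at e1
  have e2 := h5 (x + Complex.I • y)
  rw [h1', h1, h1, h2, h2', h2', h2, Complex.add_im, Complex.add_im, Complex.add_im, h5] at e2
  have e3 := h5 y
  apply Complex.ext
  · simp [e3] at e2 ⊢
    linarith
  · simp at e1 ⊢
    linarith

section ml

variable {A : Type} [AddCommGroup A] [Module ℂ A] {ι : Type} [Fintype ι] [DecidableEq ι]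
  (e : Basis ι ℂ A) {κ : Type} [Fintype κ] [DecidableEq κ]

theorem mat_sum (u : A → A) (j : ι) : u (e j) = ∑ i, mat e u i j • e i :=
  (e.sum_repr (u (e j))).symm

/-- A multilinear form on the images of the basis. -/
theorem ml_mat (τ : MultilinearMap ℂ (fun _ : κ => A) ℂ) (u : A → A) (v : κ → ι) :
    τ (fun k => u (e (v k))) = (kp κ (mat e u)ᵀ *ᵥ fun w => τ fun k => e (w k)) v := by
  have h1 : (fun k => u (e (v k))) = fun k => ∑ i, mat e u i (v k) • e i :=
    funext fun k => mat_sum e u (v k)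
  rw [h1, MultilinearMap.map_sum, Matrix.mulVec, dotProduct]
  refine Finset.sum_congr rfl fun w _ => ?_
  rw [MultilinearMap.map_smul_univ, smul_eq_mul, kp_apply]
  rfl

/-- The forms which are fixed. -/
theorem ml_fix {J s : A → A} {g : A →ₗ[ℂ] A}
    (hg : ∀ t : (κ → ι) → ℂ, kp κ (mat e J)ᵀ *ᵥ t = star t → kp κ (mat e s)ᵀ *ᵥ t = t →
      kp κ (mat e g)ᵀ *ᵥ t = t) (τ : MultilinearMap ℂ (fun _ : κ => A) ℂ)
    (hJ : ∀ x : κ → A, τ (fun k => J (x k)) = star (τ x))
    (hs : ∀ x : κ → A, τ (fun k => s (x k)) = τ x) (x : κ → A) : τ (fun k => g (x k)) = τ x := by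
  have h1 := hg (fun w => τ fun k => e (w k))
    (funext fun v => by rw [← ml_mat]; exact hJ fun k => e (v k))
    (funext fun v => by rw [← ml_mat]; exact hs fun k => e (v k))
  have h2 : τ.compLinearMap (fun _ => g) = τ := by
    refine Basis.ext_multilinear (fun _ => e) fun v => ?_
    rw [MultilinearMap.compLinearMap_apply]
    have h3 := congrFun h1 v
    rw [← ml_mat] at h3
    exact h3
  have h3 := congrArg (fun f => f x) h2
  simpa using h3

end ml

section forms

variable {A : Type} [Ring A] [Algebra ℂ A]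

/-- the form `tr x` -/
def tau1 (tr : A →ₗ[ℂ] ℂ) : MultilinearMap ℂ (fun _ : Fin 1 => A) ℂ where
  toFun x := tr (x 0)
  map_update_add' := by
    intro _ x i a b
    fin_cases i
    simp
  map_update_smul' := by
    intro _ x i c a
    fin_cases i
    simp

/-- the form `ψ (p x) y` -/
def tau2 (ψ : LinearMap.BilinForm ℂ A) (p : A →ₗ[ℂ] A) :
    MultilinearMap ℂ (fun _ : Fin 2 => A) ℂ where
  toFun x := ψ (p (x 0)) (x 1)
  map_update_add' := by
    intro inst x i a b
    have h : inst = instDecidableEqFin 2 := Subsingleton.elim _ _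
    subst h
    fin_cases i <;> simp [Function.update]
  map_update_smul' := by
    intro inst x i c a
    have h : inst = instDecidableEqFin 2 := Subsingleton.elim _ _
    subst h
    fin_cases i <;> simp [Function.update]

/-- the form `ψ (x y) z` -/
def tau3 (ψ : LinearMap.BilinForm ℂ A) : MultilinearMap ℂ (fun _ : Fin 3 => A) ℂ where
  toFun x := ψ (x 0 * x 1) (x 2)
  map_update_add' := by
    intro inst x i a b
    have h : inst = instDecidableEqFin 3 := Subsingleton.elim _ _
    subst h
    fin_cases i <;> simp [Function.update, add_mul, mul_add]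
  map_update_smul' := by
    intro inst x i c a
    have h : inst = instDecidableEqFin 3 := Subsingleton.elim _ _
    subst h
    fin_cases i <;> simp [Function.update]

end forms

/-- Additive maps which preserve the summands commute with the projections. -/
theorem proj_comm {A : Type} [AddCommGroup A] [Module ℂ A] (gr : ℕ → Submodule ℂ A)
    [DirectSum.Decomposition gr] (f : A →+ A) (hf : ∀ i, ∀ x ∈ gr i, f x ∈ gr i) (i : ℕ) (x : A) :
    ((DirectSum.decompose gr (f x) i : gr i) : A) = f (DirectSum.decompose gr x i : gr i) := by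
  classical
  induction x using DirectSum.Decomposition.inductionOn gr with
  | zero => simp
  | @homogeneous j m =>
    by_cases hij : j = i
    · subst hij
      rw [DirectSum.decompose_of_mem_same _ (hf j m m.2), DirectSum.decompose_of_mem_same _ m.2]
    · rw [DirectSum.decompose_of_mem_ne _ (hf j m m.2) hij, DirectSum.decompose_of_mem_ne _ m.2 hij,
        map_zero]
  | add a b ha hb =>
    rw [map_add, DirectSum.decompose_add, DirectSum.decompose_add, DirectSum.add_apply,
      DirectSum.add_apply, Submodule.coe_add, Submodule.coe_add, map_add, ha, hb]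

/-- the projection -/
noncomputable def prj {A : Type} [AddCommGroup A] [Module ℂ A] (gr : ℕ → Submodule ℂ A)
    [DirectSum.Decomposition gr] (i : ℕ) : A →ₗ[ℂ] A where
  toFun x := (DirectSum.decompose gr x i : gr i)
  map_add' x y := by simp
  map_smul' c x := by
    rw [DirectSum.decompose_smul]
    rfl

theorem bil_mat {A : Type} [AddCommGroup A] [Module ℂ A] {ι : Type} [Fintype ι] [DecidableEq ι]
    (e : Basis ι ℂ A) (ψ : LinearMap.BilinForm ℂ A) (u : A → A) (i j : ι) :
    ψ (u (e i)) (u (e j)) =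
      ((mat e u)ᵀ * (Matrix.of fun i j => ψ (e i) (e j)) * mat e u) i j := by
  rw [mat_sum e u i, mat_sum e u j, Matrix.mul_apply, map_sum]
  refine Finset.sum_congr rfl fun k _ => ?_
  rw [map_smul, smul_eq_mul, mul_comm, Matrix.mul_apply, map_sum, LinearMap.sum_apply]
  congr 1
  refine Finset.sum_congr rfl fun l _ => ?_
  rw [map_smul, LinearMap.smul_apply, smul_eq_mul]
  rfl

theorem mat_comp {A : Type} [AddCommGroup A] [Module ℂ A] {ι : Type} [Fintype ι] [DecidableEq ι]
    (e : Basis ι ℂ A) (σ : ℂ → ℂ) (u v : A → A) (hadd : ∀ x y, u (x + y) = u x + u y)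
    (hsmul : ∀ c x, u (c • x) = σ c • u x) :
    mat e (fun x => u (v x)) = mat e u * (mat e v).map σ := by
  ext l j
  have h1 : u (v (e j)) = ∑ i, σ (mat e v i j) • u (e i) := by
    rw [mat_sum e v j]
    have h2 := map_sum (AddMonoidHom.mk' u hadd) (fun i => mat e v i j • e i) Finset.univ
    simp only [AddMonoidHom.mk'_apply] at h2
    rw [h2]
    exact Finset.sum_congr rfl fun i _ => hsmul _ _
  change e.repr (u (v (e j))) l = _
  rw [h1, map_sum, Finsupp.finset_sum_apply, Matrix.mul_apply]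
  refine Finset.sum_congr rfl fun i _ => ?_
  rw [map_smul, Finsupp.smul_apply, smul_eq_mul, mul_comm]
  rfl

theorem lv (h : S_MA) : S_LV := by
  classical
  intro A _ _ _ gr tr ψ J s hint hJadd hJsmul hJmul hJgr hJtr hJψ hpos hsgr hstr hsψ heig
  obtain ⟨κ₀, _, b, lam, hb⟩ := heig
  -- the orthonormal basis
  have hh1 : ∀ x y z : A, ψ z (J (x + y)) = ψ z (J x) + ψ z (J y) := fun x y z => by
    rw [hJadd, map_add]
  have hh2 : ∀ (r : ℂ) (x y : A), ψ y (J (r • x)) = star r * ψ y (J x) := fun r x y => by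
    rw [hJsmul, map_smul, smul_eq_mul]
  have hh1' : ∀ x y z : A, ψ (x + y) (J z) = ψ x (J z) + ψ y (J z) := fun x y z => by
    rw [map_add, LinearMap.add_apply]
  have hh2' : ∀ (r : ℂ) (x y : A), ψ (r • x) (J y) = r * ψ x (J y) := fun r x y => by
    rw [map_smul, LinearMap.smul_apply, smul_eq_mul]
  have hre : ∀ x : A, (ψ x (J x)).im = 0 := fun x => by
    by_cases hx : x = 0
    · subst hx
      simp
    · obtain ⟨r, -, hr⟩ := hpos x hx
      rw [hr, Complex.ofReal_im]
  obtain ⟨n, e, he⟩ := exists_onb (fun x y => ψ x (J y)) hh1 hh2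
    (herm _ hh1 hh2 hh1' hh2' hre) (fun x hx => by
      obtain ⟨r, hr0, hr⟩ := hpos x hx
      change 0 < (ψ x (J x)).re
      rw [hr, Complex.ofReal_re]
      exact hr0)
  let Q : Matrix (Fin n) (Fin n) ℂ := Matrix.of fun i j => ψ (e i) (e j)
  have he' : ∀ i j, ψ (e i) (J (e j)) = if i = j then 1 else 0 := he
  have hQc : Q * mat e J = 1 := by
    ext i j
    rw [Matrix.mul_apply, Matrix.one_apply, ← he' i j, mat_sum e J j, map_sum]
    refine Finset.sum_congr rfl fun l _ => ?_
    rw [map_smul, smul_eq_mul, mul_comm]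
    rfl
  have hcQ : mat e J = Qᴴ := by
    ext j i
    have h1 := hJψ (e i) (e j)
    rw [mat_sum e J i, map_sum, LinearMap.sum_apply] at h1
    rw [Matrix.conjTranspose_apply]
    change _ = star (ψ (e i) (e j))
    rw [← h1, Finset.sum_eq_single j]
    · rw [map_smul, LinearMap.smul_apply, he', if_pos rfl, smul_eq_mul, mul_one]
    · intro l _ hl
      rw [map_smul, LinearMap.smul_apply, he', if_neg hl, smul_zero]
    · intro hj
      exact absurd (Finset.mem_univ j) hj
  rw [hcQ] at hQc
  have hQQ : Qᴴ * Q = 1 := mul_eq_one_comm.1 hQc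
  have hsQ : (mat e s)ᵀ * Q * mat e s = Q := by
    ext i j
    rw [← bil_mat e ψ s i j, hsψ]
    rfl
  -- the eigenbasis
  let b' : Basis (Fin n) ℂ A := b.reindex (b.indexEquiv e)
  let lam' : Fin n → ℂ := fun i => lam ((b.indexEquiv e).symm i)
  have hb' : ∀ i, s (b' i) = lam' i • b' i := fun i => by
    rw [Basis.reindex_apply]
    exact (hb _).1
  have hmat : mat e s = LinearMap.toMatrix e e s.toLinearMap := by
    ext i j
    rw [LinearMap.toMatrix_apply]
    rfl
  have hdiag : LinearMap.toMatrix b' b' s.toLinearMap = Matrix.diagonal lam' := by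
    ext i j
    rw [LinearMap.toMatrix_apply]
    change b'.repr (s (b' j)) i = _
    rw [hb', map_smul, Basis.repr_self, Finsupp.smul_apply, Finsupp.single_apply, smul_eq_mul,
      Matrix.diagonal_apply]
    by_cases hij : i = j
    · subst hij
      simp
    · rw [if_neg (fun h => hij h.symm), if_neg hij, mul_zero]
  have hsP : mat e s = e.toMatrix b' * Matrix.diagonal lam' * b'.toMatrix e := by
    rw [hmat, ← hdiag, basis_toMatrix_mul_linearMap_toMatrix_mul_basis_toMatrix]
  obtain ⟨g', gi', hggi, hgQ, hcomm, hGood, hforms⟩ := h (Fin n) Q (mat e s) (e.toMatrix b')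
    (b'.toMatrix e) lam' hQQ hsQ (Basis.toMatrix_mul_toMatrix_flip e b') hsP
    (fun i => (hb _).2)
  have hgig : gi' * g' = 1 := mul_eq_one_comm.1 hggi
  let gl : A ≃ₗ[ℂ] A := LinearEquiv.ofLinear (Matrix.toLin e e g') (Matrix.toLin e e gi')
    (by rw [← Matrix.toLin_mul, hggi, Matrix.toLin_one])
    (by rw [← Matrix.toLin_mul, hgig, Matrix.toLin_one])
  have hmg : mat e (gl : A →ₗ[ℂ] A) = g' := by
    have h1 : mat e (gl : A →ₗ[ℂ] A) = LinearMap.toMatrix e e (gl : A →ₗ[ℂ] A) := by
      ext i j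
      rw [LinearMap.toMatrix_apply]
      rfl
    rw [h1]
    exact LinearMap.toMatrix_toLin e e g'
  have hfix : ∀ (κ : Type) [Fintype κ] [DecidableEq κ] (τ : MultilinearMap ℂ (fun _ : κ => A) ℂ),
      (∀ x : κ → A, τ (fun k => J (x k)) = star (τ x)) →
      (∀ x : κ → A, τ (fun k => s (x k)) = τ x) → ∀ x : κ → A, τ (fun k => gl (x k)) = τ x := by
    intro κ _ _ τ hτJ hτs x
    refine ml_fix e (J := J) (s := s) (g := (gl : A →ₗ[ℂ] A)) (fun t h1 h2 => ?_) τ hτJ hτs x
    rw [hmg]
    rw [hcQ] at h1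
    exact hforms κ t h1 h2
  have hnd : ∀ a : A, (∀ z, ψ a z = 0) → a = 0 := by
    intro a ha
    by_contra hne
    obtain ⟨r, hr0, hr⟩ := hpos a hne
    rw [ha] at hr
    have : r = 0 := by exact_mod_cast hr.symm
    exact hr0.ne' this
  have hnd' : ∀ a a' : A, (∀ z, ψ a (gl z) = ψ a' (gl z)) → a = a' := by
    intro a a' haa
    rw [← sub_eq_zero]
    refine hnd _ fun z => ?_
    rw [map_sub, LinearMap.sub_apply, ← gl.apply_symm_apply z, haa, sub_self]
  have hψg : ∀ x y, ψ (gl x) (gl y) = ψ x y := by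
    intro x y
    exact hfix (Fin 2) (tau2 ψ LinearMap.id) (fun x => hJψ _ _) (fun x => hsψ _ _) ![x, y]
  have htr : ∀ x, tr (gl x) = tr x := by
    intro x
    exact hfix (Fin 1) (tau1 tr) (fun x => hJtr _) (fun x => hstr _) (fun _ => x)
  have hmul3 : ∀ x y z, ψ (gl x * gl y) (gl z) = ψ (x * y) z := by
    intro x y z
    refine hfix (Fin 3) (tau3 ψ) (fun x => ?_) (fun x => ?_) ![x, y, z]
    · change ψ (J (x 0) * J (x 1)) (J (x 2)) = star (ψ (x 0 * x 1) (x 2))
      rw [← hJmul, hJψ]
    · change ψ (s (x 0) * s (x 1)) (s (x 2)) = ψ (x 0 * x 1) (x 2)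
      rw [← map_mul, hsψ]
  have hmul : ∀ x y, gl (x * y) = gl x * gl y := by
    intro x y
    refine hnd' _ _ fun z => ?_
    rw [hψg, hmul3]
  have hone : gl 1 = 1 := by
    have h1 := hmul 1 (gl.symm 1)
    rw [one_mul, gl.apply_symm_apply, mul_one] at h1
    exact h1.symm
  let G : A ≃ₐ[ℂ] A := AlgEquiv.ofLinearEquiv gl hone hmul
  have hGg : ∀ x, G x = gl x := fun x => rfl
  -- the grading
  letI := hint.chooseDecomposition
  have hprJ : ∀ i x, prj gr i (J x) = J (prj gr i x) := fun i x =>
    proj_comm gr (AddMonoidHom.mk' J hJadd) hJgr i x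
  have hprs : ∀ i x, prj gr i (s x) = s (prj gr i x) := fun i x =>
    proj_comm gr (s : A →+ A) hsgr i x
  have hprg : ∀ i x, prj gr i (gl x) = gl (prj gr i x) := by
    intro i x
    refine hnd' _ _ fun z => ?_
    rw [hψg]
    refine hfix (Fin 2) (tau2 ψ (prj gr i)) (fun x => ?_) (fun x => ?_) ![x, z]
    · change ψ (prj gr i (J (x 0))) (J (x 1)) = star (ψ (prj gr i (x 0)) (x 1))
      rw [hprJ, hJψ]
    · change ψ (prj gr i (s (x 0))) (s (x 1)) = ψ (prj gr i (x 0)) (x 1)
      rw [hprs, hsψ]
  have hgr : ∀ i, ∀ x ∈ gr i, gl x ∈ gr i := by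
    intro i x hx
    have h1 : prj gr i x = x := DirectSum.decompose_of_mem_same _ hx
    have h2 := hprg i x
    rw [h1] at h2
    rw [← h2]
    exact (DirectSum.decompose gr (gl x) i).2
  -- commutation
  let Kl : A →ₗ[ℂ] A := (gl : A →ₗ[ℂ] A) ∘ₗ s.toLinearMap ∘ₗ (gl.symm : A →ₗ[ℂ] A)
  have hmK : mat e Kl = g' * mat e s * gi' := by
    have h1 : mat e Kl = LinearMap.toMatrix e e Kl := by
      ext i j
      rw [LinearMap.toMatrix_apply]
      rfl
    have h2 : LinearMap.toMatrix e e (gl : A →ₗ[ℂ] A) = g' := LinearMap.toMatrix_toLin e e g'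
    have h3 : LinearMap.toMatrix e e (gl.symm : A →ₗ[ℂ] A) = gi' :=
      LinearMap.toMatrix_toLin e e gi'
    rw [h1, LinearMap.toMatrix_comp e e e, LinearMap.toMatrix_comp e e e, h2, h3, hmat, mul_assoc]
  have hJK : mat e (fun x => J (Kl x)) = mat e (fun x => Kl (J x)) := by
    rw [mat_comp e star J Kl hJadd hJsmul, mat_comp e id Kl J (fun x y => map_add _ _ _)
      (fun c x => map_smul _ _ _), hmK, hcQ, Matrix.map_id]
    exact hcomm.symm
  let Jl : A →ₛₗ[starRingEnd ℂ] A :=
    { toFun := J, map_add' := hJadd, map_smul' := fun c x => hJsmul c x }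
  have hcm : ∀ x, J (Kl x) = Kl (J x) := by
    have h1 : Jl.comp Kl = Kl.comp Jl := by
      refine e.ext fun j => ?_
      change J (Kl (e j)) = Kl (J (e j))
      rw [mat_sum e (fun x => J (Kl x)) j, mat_sum e (fun x => Kl (J x)) j, hJK]
    intro x
    exact congrArg (fun f => f x) h1
  refine ⟨Fin n, inferInstance, inferInstance, e, G, hgr, htr, hcm, ?_⟩
  intro κ _ _ a ha
  have h1 : mat e G = g' := hmg
  rw [h1]
  rw [hcQ] at ha
  exact hGood κ a ha

end Pool.Agent.N262.HR
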